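import Mathlib.MeasureTheory.Covering.Besicovitch
import Mathlib.MeasureTheory.Measure.Lebesgue.Basic
import Mathlib.Topology.GDelta.Basic
import Mathlib.MeasureTheory.Covering.BesicovitchVectorSpace

/-!
# MP_2abcfb_lc: monotone G-delta representatives of Lebesgue measurable sets, in ZFC

`psi M` is the set of points at which the upper (symmetric) density of `M` is `1`.
-/

open MeasureTheory Set Filter Topology Metric

namespace Pool.Agent.Results.MP_2abcfb_lc.MonotoneGdelta

/-- the points of upper symmetric density one of `M` -/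
noncomputable def psi (M : Set ℝ) : Set ℝ :=
  ⋂ k : ℕ, ⋃ r : {r : ℝ // 0 < r ∧ r < 1 / ((k : ℝ) + 1)},
    {x | ENNReal.ofReal (1 - 1 / ((k : ℝ) + 1)) * ENNReal.ofReal (2 * r.1) < volume (M ∩ ball x r.1)}

lemma mem_psi {M : Set ℝ} {x : ℝ} : x ∈ psi M ↔ ∀ k : ℕ, ∃ r : ℝ, 0 < r ∧ r < 1 / ((k : ℝ) + 1) ∧
    ENNReal.ofReal (1 - 1 / ((k : ℝ) + 1)) * ENNReal.ofReal (2 * r) < volume (M ∩ ball x r) := by
  simp [psi, and_assoc]

lemma isOpen_ball_meas (M : Set ℝ) (r : ℝ) (c : ENNReal) :
    IsOpen {x : ℝ | c < volume (M ∩ ball x r)} := by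
  rw [Metric.isOpen_iff]
  intro x hx
  have hx' : c < volume (M ∩ ball x r) := hx
  -- exhaust the ball by smaller closed balls
  have hU : M ∩ ball x r = ⋃ n : ℕ, M ∩ closedBall x (r - 1 / ((n : ℝ) + 1)) := by
    rw [← inter_iUnion]
    congr 1
    ext y
    simp only [mem_ball, mem_iUnion, mem_closedBall]
    constructor
    · intro h
      obtain ⟨n, hn⟩ := exists_nat_one_div_lt (sub_pos.2 h)
      exact ⟨n, by linarith⟩
    · rintro ⟨n, hn⟩
      have : 0 < 1 / ((n : ℝ) + 1) := by positivity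
      linarith
  have hmono : Monotone (fun n : ℕ => M ∩ closedBall x (r - 1 / ((n : ℝ) + 1))) := by
    intro m n hmn
    apply inter_subset_inter_right
    apply closedBall_subset_closedBall
    have : 1 / ((n : ℝ) + 1) ≤ 1 / ((m : ℝ) + 1) := by
      apply one_div_le_one_div_of_le (by positivity)
      have : (m : ℝ) ≤ n := by exact_mod_cast hmn
      linarith
    linarith
  have hlim := tendsto_measure_iUnion_atTop (μ := volume) hmono
  rw [← hU] at hlim
  obtain ⟨n, hn⟩ := (hlim.eventually (lt_mem_nhds hx')).exists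
  refine ⟨1 / ((n : ℝ) + 1), by positivity, ?_⟩
  intro y hy
  refine lt_of_lt_of_le hn (measure_mono ?_)
  apply inter_subset_inter_right
  intro z hz
  rw [mem_closedBall] at hz
  rw [mem_ball] at hy ⊢
  have := dist_triangle z x y
  rw [dist_comm x y] at this
  linarith

lemma isGdelta_psi (M : Set ℝ) : IsGδ (psi M) := by
  apply IsGδ.iInter_of_isOpen
  intro k
  apply isOpen_iUnion
  intro r
  exact isOpen_ball_meas M r.1 _

lemma psi_mono {M M' : Set ℝ} (h : M ⊆ M') : psi M ⊆ psi M' := by
  intro x hx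
  rw [mem_psi] at hx ⊢
  intro k
  obtain ⟨r, h0, h1, h2⟩ := hx k
  exact ⟨r, h0, h1, lt_of_lt_of_le h2 (measure_mono (inter_subset_inter_left _ h))⟩

lemma psi_congr {M M' : Set ℝ} (h : M =ᵐ[volume] M') : psi M = psi M' := by
  ext x
  rw [mem_psi, mem_psi]
  have key : ∀ r, volume (M ∩ ball x r) = volume (M' ∩ ball x r) := fun r =>
    measure_congr (ae_eq_set_inter h (ae_eq_refl _))
  simp only [key]

lemma meas_closedBall (M : Set ℝ) (x r : ℝ) :
    volume (M ∩ ball x r) = volume (M ∩ closedBall x r) := by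
  apply measure_congr
  apply ae_eq_set_inter (ae_eq_refl _)
  rw [Real.ball_eq_Ioo, Real.closedBall_eq_Icc]
  exact Ioo_ae_eq_Icc

lemma psi_ae_of_measurable {M : Set ℝ} (hM : MeasurableSet M) : psi M =ᵐ[volume] M := by
  have hd := Besicovitch.ae_tendsto_measure_inter_div_of_measurableSet (volume : Measure ℝ) hM
  filter_upwards [hd] with x hx
  have hiff : x ∈ psi M ↔ x ∈ M := by
    constructor
    · intro hpsi
      by_contra hxM
      rw [indicator_of_notMem hxM] at hx
      have hev : ∀ᶠ r in 𝓝[>] (0 : ℝ),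
          volume (M ∩ closedBall x r) / volume (closedBall x r) < ENNReal.ofReal (1 / 2) :=
        hx.eventually (gt_mem_nhds (by simp))
      rw [eventually_nhdsWithin_iff, Metric.eventually_nhds_iff] at hev
      obtain ⟨ε, hε, hev⟩ := hev
      obtain ⟨n, hn⟩ := exists_nat_one_div_lt hε
      rw [mem_psi] at hpsi
      obtain ⟨r, h0, h1, h2⟩ := hpsi (n + 1)
      have hr : r < ε := by
        refine h1.trans (lt_trans ?_ hn)
        apply one_div_lt_one_div_of_lt (by positivity)
        push_cast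
        linarith
      have h3 := hev (y := r) (by rw [Real.dist_eq, sub_zero, abs_of_pos h0]; exact hr) h0
      rw [← meas_closedBall, Real.volume_closedBall] at h3
      have h4 : ENNReal.ofReal (1 / 2) ≤ ENNReal.ofReal (1 - 1 / (((n + 1 : ℕ) : ℝ) + 1)) := by
        apply ENNReal.ofReal_le_ofReal
        have : 1 / (((n + 1 : ℕ) : ℝ) + 1) ≤ 1 / 2 := by
          apply one_div_le_one_div_of_le (by norm_num)
          push_cast
          have : (0 : ℝ) ≤ n := by positivity
          linarith
        linarith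
      have h5 : ENNReal.ofReal (1 / 2) * ENNReal.ofReal (2 * r) < volume (M ∩ ball x r) :=
        lt_of_le_of_lt (mul_le_mul_left h4 _) h2
      have h6 : volume (M ∩ ball x r) < ENNReal.ofReal (1 / 2) * ENNReal.ofReal (2 * r) := by
        rwa [ENNReal.div_lt_iff (Or.inl (by simp [h0])) (Or.inl ENNReal.ofReal_ne_top)] at h3
      exact absurd h5 (not_lt.2 h6.le)
    · intro hxM
      rw [indicator_of_mem hxM] at hx
      rw [mem_psi]
      intro k
      have hlt : ENNReal.ofReal (1 - 1 / ((k : ℝ) + 1)) < (1 : ℝ → ENNReal) x := by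
        have : (0 : ℝ) < 1 / ((k : ℝ) + 1) := by positivity
        rw [Pi.one_apply, ← ENNReal.ofReal_one]
        exact (ENNReal.ofReal_lt_ofReal_iff (by norm_num)).2 (by linarith)
      have hev := hx.eventually (lt_mem_nhds hlt)
      have hev2 : ∀ᶠ r in 𝓝[>] (0 : ℝ), r ∈ Ioo (0 : ℝ) (1 / ((k : ℝ) + 1)) :=
        Ioo_mem_nhdsGT (by positivity)
      obtain ⟨r, hr1, hr2⟩ := (hev.and hev2).exists
      refine ⟨r, hr2.1, hr2.2, ?_⟩
      rw [← meas_closedBall, Real.volume_closedBall] at hr1
      rwa [ENNReal.lt_div_iff_mul_lt (Or.inl (by simp [hr2.1])) (Or.inl ENNReal.ofReal_ne_top)] at hr1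
  exact propext hiff

lemma psi_ae {M : Set ℝ} (hM : NullMeasurableSet M volume) : psi M =ᵐ[volume] M := by
  have h := hM.toMeasurable_ae_eq
  rw [← psi_congr h]
  exact (psi_ae_of_measurable (measurableSet_toMeasurable _ _)).trans h

/-- **MP_2abcfb_lc, Q1 and Q2, answered positively in ZFC.**  There is a monotone map from the
Lebesgue measurable sets of reals to the `G_δ` sets, choosing a representative of every measure
class: `ψ M` is `G_δ`, differs from `M` by a null set, `M ⊆ M'` implies `ψ M ⊆ ψ M'`, and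
`ψ M = ψ M'` whenever `M` and `M'` differ by a null set. -/
theorem result : ∃ ψ : Set ℝ → Set ℝ,
    (∀ M, NullMeasurableSet M (volume : Measure ℝ) → IsGδ (ψ M)) ∧
    (∀ M M', NullMeasurableSet M (volume : Measure ℝ) → NullMeasurableSet M' (volume : Measure ℝ) →
      M ⊆ M' → ψ M ⊆ ψ M') ∧
    (∀ M, NullMeasurableSet M (volume : Measure ℝ) →
      (volume : Measure ℝ) ((M \ ψ M) ∪ (ψ M \ M)) = 0) ∧
    (∀ M M', NullMeasurableSet M (volume : Measure ℝ) → NullMeasurableSet M' (volume : Measure ℝ) →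
      (volume : Measure ℝ) ((M \ M') ∪ (M' \ M)) = 0 → ψ M = ψ M') := by
  refine ⟨psi, fun M _ => isGdelta_psi M, fun M M' _ _ h => psi_mono h, fun M hM => ?_,
    fun M M' _ _ h => ?_⟩
  · have h := ae_eq_set.1 (psi_ae hM)
    exact measure_union_null h.2 h.1
  · rw [measure_union_null_iff] at h
    exact psi_congr (ae_eq_set.2 ⟨h.1, h.2⟩)

end Pool.Agent.Results.MP_2abcfb_lc.MonotoneGdelta
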